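import Pool.Agent.MP_8b86ce_co.H45.Extract

set_option autoImplicit false

namespace Pool.Agent.Results.MP_8b86ce_co.EPositive

open Finset

open Classical in
/-- The elementary symmetric function `e_m` in the variables `x_0, x_1, ...`, as a formal power
series: the coefficient of the monomial with exponent vector `a` is one if all exponents are at
most one and they add up to `m`, and zero otherwise. -/
noncomputable def elem (m : ℕ) : MvPowerSeries ℕ ℚ :=
  fun a => if (∀ i, a i ≤ 1) ∧ a.degree = m then 1 else 0

/-- `e_l = e_{l_1} e_{l_2} ...` for a partition `l`. -/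
noncomputable def elemPart {n : ℕ} (l : Nat.Partition n) : MvPowerSeries ℕ ℚ :=
  (l.parts.map elem).prod

/-- The `k`-division map: the coefficient of `x^a` in `R_k f` is that of `x^(k a)` in `f`. -/
noncomputable def divMap (k : ℕ) (f : MvPowerSeries ℕ ℚ) : MvPowerSeries ℕ ℚ :=
  fun a => MvPowerSeries.coeff (k • a) f

open Pool.Agent.MP_8b86ce_co.H45

lemma coeff_esymm {σ : Type} [Fintype σ] [DecidableEq σ] (m : ℕ) (a : σ →₀ ℕ) :
    MvPolynomial.coeff a (MvPolynomial.esymm σ ℚ m)
      = if (∀ i, a i ≤ 1) ∧ a.degree = m then 1 else 0 := by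
  rw [MvPolynomial.esymm_eq_sum_monomial, MvPolynomial.coeff_sum]
  simp only [MvPolynomial.coeff_monomial]
  have hv : ∀ (S : Finset σ) (i : σ), (∑ j ∈ S, Finsupp.single j 1 : σ →₀ ℕ) i
      = if i ∈ S then 1 else 0 := by
    intro S i
    rw [Finsupp.finsetSum_apply]
    simp [Finsupp.single_apply]
  split_ifs with h
  · rw [sum_eq_single a.support]
    · rw [if_pos]
      ext i
      rw [hv]
      have := h.1 i
      simp only [Finsupp.mem_support_iff]
      split_ifs <;> omega
    · intro S _ hS
      rw [if_neg]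
      intro e
      apply hS
      ext i
      rw [Finsupp.mem_support_iff, ← e, hv]
      simp
    · intro hS
      exfalso
      apply hS
      rw [mem_powersetCard_univ, ← h.2, Finsupp.degree_apply, card_eq_sum_ones]
      apply sum_congr rfl
      intro i hi
      have := h.1 i
      rw [Finsupp.mem_support_iff] at hi
      omega
  · apply sum_eq_zero
    intro S hS
    rw [if_neg]
    intro e
    apply h
    constructor
    · intro i
      rw [← e, hv]
      split_ifs <;> omega
    · rw [← e, map_sum]
      simpa using mem_powersetCard_univ.1 hS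

lemma kill_elem (N m : ℕ) : MvPowerSeries.killCompl (Fin.valEmbedding (n := N)) (elem m)
    = (MvPolynomial.esymm (Fin N) ℚ m : MvPowerSeries (Fin N) ℚ) := by
  ext a
  rw [MvPowerSeries.coeff_killCompl, MvPolynomial.coeff_coe, coeff_esymm]
  change elem m _ = _
  unfold elem
  have e1 : (Finsupp.embDomain (Fin.valEmbedding (n := N)) a).degree = a.degree := by
    rw [Finsupp.embDomain_eq_mapDomain, Finsupp.degree_mapDomain]
  have e2 : (∀ i, Finsupp.embDomain (Fin.valEmbedding (n := N)) a i ≤ 1) ↔ ∀ i, a i ≤ 1 := by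
    constructor
    · intro h i
      have := h (Fin.valEmbedding i)
      rwa [Finsupp.embDomain_apply_self] at this
    · intro h i
      by_cases hi : i ∈ Set.range (Fin.valEmbedding (n := N))
      · obtain ⟨j, rfl⟩ := hi
        rw [Finsupp.embDomain_apply_self]
        exact h j
      · rw [Finsupp.embDomain_of_notMem_range _ _ _ hi]
        exact zero_le_one
  simp only [e1, e2]
  congr

lemma kill_elemPart (N : ℕ) {n : ℕ} (l : Nat.Partition n) :
    MvPowerSeries.killCompl (Fin.valEmbedding (n := N)) (elemPart l)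
      = (MvPolynomial.esymmPart (Fin N) ℚ l : MvPowerSeries (Fin N) ℚ) := by
  unfold elemPart MvPolynomial.esymmPart
  rw [map_multiset_prod, ← MvPolynomial.coeToMvPowerSeries.ringHom_apply, map_multiset_prod,
    Multiset.map_map, Multiset.map_map]
  simp only [Function.comp_def, kill_elem, MvPolynomial.coeToMvPowerSeries.ringHom_apply]

lemma coeff_elemPart (N : ℕ) {n : ℕ} (l : Nat.Partition n) (a : Fin N →₀ ℕ) :
    MvPowerSeries.coeff (Finsupp.embDomain (Fin.valEmbedding (n := N)) a) (elemPart l)
      = MvPolynomial.coeff a (MvPolynomial.esymmPart (Fin N) ℚ l) := by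
  rw [← MvPowerSeries.coeff_killCompl, kill_elemPart, MvPolynomial.coeff_coe]

lemma exists_emb (N : ℕ) (a : ℕ →₀ ℕ) (h : ∀ i ∈ a.support, i < N) :
    ∃ b : Fin N →₀ ℕ, Finsupp.embDomain (Fin.valEmbedding (n := N)) b = a := by
  refine ⟨a.comapDomain _ (Fin.valEmbedding (n := N)).injective.injOn, ?_⟩
  apply Finsupp.embDomain_comapDomain
  intro i hi
  exact ⟨⟨i, h i hi⟩, rfl⟩

lemma level_iff {k n : ℕ} (hk : 0 < k) (μ : Nat.Partition (k * n)) (N : ℕ)
    (c : Nat.Partition n → ℚ) :
    (dvL hk (MvPolynomial.esymmPart (Fin N) ℚ μ)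
        = ∑ l, c l • MvPolynomial.esymmPart (Fin N) ℚ l) ↔
      ∀ a : ℕ →₀ ℕ, (∀ i ∈ a.support, i < N) → MvPowerSeries.coeff (k • a) (elemPart μ)
        = ∑ l, c l * MvPowerSeries.coeff a (elemPart l) := by
  have e : ∀ b : Fin N →₀ ℕ, k • Finsupp.embDomain (Fin.valEmbedding (n := N)) b
      = Finsupp.embDomain (Fin.valEmbedding (n := N)) (k • b) := by
    intro b
    rw [Finsupp.embDomain_eq_mapDomain, Finsupp.embDomain_eq_mapDomain, Finsupp.mapDomain_smul]
  constructor
  · intro h a ha
    obtain ⟨b, rfl⟩ := exists_emb N a ha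
    have := congrArg (MvPolynomial.coeff b) h
    rw [coeff_dvL, MvPolynomial.coeff_sum] at this
    simp only [e, coeff_elemPart, this, MvPolynomial.coeff_smul, smul_eq_mul]
  · intro h
    ext b
    have := h (Finsupp.embDomain (Fin.valEmbedding (n := N)) b) (by
      intro i hi
      rw [Finsupp.support_embDomain, mem_map] at hi
      obtain ⟨j, -, rfl⟩ := hi
      exact j.2)
    rw [coeff_dvL, MvPolynomial.coeff_sum]
    simpa only [e, coeff_elemPart, MvPolynomial.coeff_smul, smul_eq_mul] using this

/-- For all `k, n ≥ 1` and every partition `μ` of `k n`, the symmetric function `R_k(e_μ)` is a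
combination of the `e_l`, `l` a partition of `n`, with non-negative integer coefficients. -/
theorem result (k n : ℕ) (hk : 1 ≤ k) (hn : 1 ≤ n) (μ : Nat.Partition (k * n)) :
    ∃ c : Nat.Partition n → ℕ,
      divMap k (elemPart μ) = ∑ l : Nat.Partition n, (c l : ℚ) • elemPart l := by
  obtain ⟨c, hc⟩ := finite_version (N := n) hk (Nat.le_succ n) μ
  refine ⟨c, ?_⟩
  ext a
  obtain ⟨c', hc'⟩ := finite_version (N := n + a.support.sup id) hk (by omega) μ
  have h1 := (level_iff hk μ _ _).1 hc'
  have h2 := (level_iff hk μ (n + 1) (fun l => (c' l : ℚ))).2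
    (fun b hb => h1 b fun i hi => by have := hb i hi; omega)
  have h3 := esymmPart_indep (σ := Fin (n + 1)) (by simp) (hc.symm.trans h2)
  have h4 := h1 a fun i hi => by
    have : id i ≤ a.support.sup id := le_sup hi
    simp only [id] at this ⊢
    omega
  rw [map_sum]
  simp only [MvPowerSeries.coeff_smul]
  have h5 : ∀ l, (c l : ℚ) = (c' l : ℚ) := fun l => congrFun h3 l
  simp only [h5]
  exact h4

end Pool.Agent.Results.MP_8b86ce_co.EPositive
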